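import Mathlib
import Pool.Agent.X86.NH.Dense
import Pool.Agent.X86.NH.Local

set_option autoImplicit false

/-!
# Strong numerical hypercyclicity from two nontrivial Jordan blocks (MP_51ad50_an, Q1): yes

Proof.  Let `S` be similar to `T`, acting on `Y`.  Choose `v_j` in `ker (S - λ_j)²` but not in
`ker (S - λ_j)`, put `u_j = (S - λ_j) v_j`, and write a point of the four-dimensional span as
`x = a₁ u₁ + b₁ v₁ + a₂ u₂ + b₂ v₂`.  For small complex numbers `κ₁, κ₂` the function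
`log |b₁| + log |b₂| + 2 Re (κ₁ a₁ / b₁ + κ₂ a₂ / b₂)` has a local maximum on the unit ball of the
span (for `κ = 0` it has a maximum).  Half of its differential at such a point `x` is a functional
`f` with `f x = ‖f‖ = ‖x‖ = 1`, and a calculation gives
`f (S^n x) = λ₁^n (1/2 + n κ₁ / λ₁) + λ₂^n (1/2 + n κ₂ / λ₂)`, whatever the norm is.  Taking
`κ₁ = λ₁ β`, `κ₂ = λ₂ conj β`, the theorem of Kronecker and a Baire category argument give small `β`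
for which these numbers are dense in the plane.
-/

namespace Pool.Agent.Results.MP_51ad50_an.StronglyNumericallyHypercyclic

open Complex ComplexConjugate Pool.Agent.X86.NH

universe u v

/-- `T` is numerically hypercyclic: for some `x ∈ X` and some bounded linear functional `f` with
`‖x‖ = ‖f‖ = f(x) = 1` the set `{f (T^n x) : n ≥ 0}` is dense in `ℂ`. -/
def NumericallyHypercyclic {X : Type u} [NormedAddCommGroup X] [NormedSpace ℂ X]
    (T : X →L[ℂ] X) : Prop :=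
  ∃ (x : X) (f : X →L[ℂ] ℂ), ‖x‖ = 1 ∧ ‖f‖ = 1 ∧ f x = 1 ∧
    Dense (Set.range fun n : ℕ => f ((T ^ n) x))

/-- `T` is strongly numerically hypercyclic: every operator `S` on a complex Banach space `Y` with
`J ∘ T = S ∘ J` for some linear homeomorphism `J : X → Y` is numerically hypercyclic. -/
def StronglyNH {X : Type u} [NormedAddCommGroup X] [NormedSpace ℂ X] (T : X →L[ℂ] X) : Prop :=
  ∀ (Y : Type v) [NormedAddCommGroup Y] [NormedSpace ℂ Y] [CompleteSpace Y] (S : Y →L[ℂ] Y)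
    (J : X ≃L[ℂ] Y), (∀ x, J (T x) = S (J x)) → NumericallyHypercyclic S

section core

variable {Y : Type v} [NormedAddCommGroup Y] [NormedSpace ℂ Y]

lemma pow_u {S : Y →L[ℂ] Y} {c : ℂ} {u : Y} (hu : S u = c • u) (n : ℕ) :
    (S ^ n) u = c ^ n • u := by
  induction n with
  | zero => simp
  | succ n ih => rw [pow_succ', ContinuousLinearMap.mul_apply, ih, map_smul, hu, smul_smul, pow_succ]

lemma pow_v {S : Y →L[ℂ] Y} {c : ℂ} {u v : Y} (hu : S u = c • u) (hv : S v = c • v + u) (n : ℕ) :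
    (S ^ n) v = c ^ n • v + ((n : ℂ) * c ^ (n - 1)) • u := by
  induction n with
  | zero => simp
  | succ n ih =>
    rw [pow_succ', ContinuousLinearMap.mul_apply, ih, map_add, map_smul, map_smul, hu, hv]
    rcases Nat.eq_zero_or_pos n with h | h
    · subst h; simp
    · obtain ⟨m, rfl⟩ : ∃ m, n = m + 1 := ⟨n - 1, by omega⟩
      simp only [Nat.add_sub_cancel]
      push_cast
      module

lemma core {S : Y →L[ℂ] Y} {l₁ l₂ : ℂ} {u₁ v₁ u₂ v₂ : Y} (hu₁ : S u₁ = l₁ • u₁)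
    (hv₁ : S v₁ = l₁ • v₁ + u₁) (hu₂ : S u₂ = l₂ • u₂) (hv₂ : S v₂ = l₂ • v₂ + u₂)
    (h₁ : u₁ ≠ 0) (h₂ : u₂ ≠ 0) (hnorm : ‖l₁‖ = ‖l₂‖) (hge : 1 ≤ ‖l₁‖)
    (hi : Indep (l₁ / ‖l₁‖) (l₂ / ‖l₂‖)) : NumericallyHypercyclic S := by
  have hl1 : (‖l₁‖ : ℂ) ≠ 0 := by
    have : ‖l₁‖ ≠ 0 := by linarith
    exact_mod_cast this
  have hl2 : (‖l₂‖ : ℂ) ≠ 0 := by rw [← hnorm]; exact hl1
  have hn1 : ‖l₁ / (‖l₁‖ : ℂ)‖ = 1 := by
    rw [norm_div, norm_real, norm_norm, div_self (by linarith)]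
  have hn2 : ‖l₂ / (‖l₂‖ : ℂ)‖ = 1 := by
    rw [norm_div, norm_real, norm_norm, div_self (by linarith)]
  have hne : l₁ ≠ l₂ := by
    intro h
    have h3 := hi 1 (-1) (by
      rw [h, zpow_neg, zpow_one]
      refine mul_inv_cancel₀ ?_
      intro h4; rw [h4] at hn2; simp at hn2)
    exact absurd h3.1 one_ne_zero
  have hd : l₁ - l₂ ≠ 0 := sub_ne_zero.2 hne
  have hd' : l₂ - l₁ ≠ 0 := sub_ne_zero.2 hne.symm
  -- the parametrisation of the span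
  let L : (Fin 4 → ℂ) →ₗ[ℂ] Y :=
    { toFun := fun x => x 0 • u₁ + x 1 • v₁ + x 2 • u₂ + x 3 • v₂
      map_add' := by intro x y; simp only [Pi.add_apply]; module
      map_smul' := by
        intro c x; simp only [Pi.smul_apply, smul_eq_mul, RingHom.id_apply]; module }
  have hLdef : ∀ x, L x = x 0 • u₁ + x 1 • v₁ + x 2 • u₂ + x 3 • v₂ := fun x => rfl
  -- a vector killed by a Jordan block
  have hjb : ∀ {l d : ℂ} {u v : Y} (a b : ℂ), S u = l • u → S v = l • v + u → u ≠ 0 → d ≠ 0 →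
      (d ^ 2 * a + 2 * d * b) • u + (d ^ 2 * b) • v = 0 → a = 0 ∧ b = 0 := by
    intro l d u v a b hu hv hu0 hd0 h
    have h5 := congrArg (fun z => S z - l • z) h
    simp only [map_add, map_smul, hu, hv, map_zero, smul_zero, sub_zero] at h5
    have h6 : (d ^ 2 * b) • u = 0 := by
      rw [← h5]; module
    have hb : b = 0 := by
      rcases smul_eq_zero.1 h6 with h7 | h7
      · rcases mul_eq_zero.1 h7 with h8 | h8
        · exact absurd h8 (pow_ne_zero 2 hd0)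
        · exact h8
      · exact absurd h7 hu0
    subst hb
    simp only [mul_zero, add_zero, zero_smul] at h
    rcases smul_eq_zero.1 h with h7 | h7
    · rcases mul_eq_zero.1 h7 with h8 | h8
      · exact absurd h8 (pow_ne_zero 2 hd0)
      · exact ⟨h8, rfl⟩
    · exact absurd h7 hu0
  have hLinj : Function.Injective L := by
    rw [← LinearMap.ker_eq_bot, LinearMap.ker_eq_bot']
    intro x hx
    rw [hLdef] at hx
    have e1 : (((l₁ - l₂) ^ 2 * x 0 + 2 * (l₁ - l₂) * x 1) • u₁ + ((l₁ - l₂) ^ 2 * x 1) • v₁) = 0 := by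
      have h5 := congrArg (fun z => S (S z - l₂ • z) - l₂ • (S z - l₂ • z)) hx
      simp only [map_add, map_sub, map_smul, hu₁, hv₁, hu₂, hv₂, map_zero, smul_zero, sub_zero] at h5
      rw [← h5]; module
    have e2 : (((l₂ - l₁) ^ 2 * x 2 + 2 * (l₂ - l₁) * x 3) • u₂ + ((l₂ - l₁) ^ 2 * x 3) • v₂) = 0 := by
      have h5 := congrArg (fun z => S (S z - l₁ • z) - l₁ • (S z - l₁ • z)) hx
      simp only [map_add, map_sub, map_smul, hu₁, hv₁, hu₂, hv₂, map_zero, smul_zero, sub_zero] at h5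
      rw [← h5]; module
    obtain ⟨h6, h7⟩ := hjb _ _ hu₁ hv₁ h₁ hd e1
    obtain ⟨h8, h9⟩ := hjb _ _ hu₂ hv₂ h₂ hd' e2
    funext i
    fin_cases i
    · exact h6
    · exact h7
    · exact h8
    · exact h9
  obtain ⟨ρ, hρ, hex⟩ := exists_extremal L hLinj
  set r : ℝ := ‖l₁‖ with hr
  obtain ⟨β, hβ, hdense⟩ := exists_dense hn1 hn2 hi (r := r) hge (ρ := ρ / r)
    (div_pos hρ (by linarith))
  have hrpos : 0 < r := by linarith
  have hβr : r * ‖β‖ < ρ := by rw [lt_div_iff₀ hrpos] at hβ; linarith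
  obtain ⟨x, hx1, hx3, hxle, hxf⟩ := hex (l₁ * β) (l₂ * conj β)
    (by rw [norm_mul]; exact hβr) (by rw [norm_mul, RCLike.norm_conj, ← hnorm]; exact hβr)
  set κ₁ := l₁ * β with hκ₁
  set κ₂ := l₂ * conj β with hκ₂
  -- the functional on the coordinates
  let F : (Fin 4 → ℂ) →ₗ[ℂ] ℂ :=
    { toFun := fun y => Fun κ₁ κ₂ x y
      map_add' := by
        intro y z
        have := Fun_sub κ₁ κ₂ x y (-z)
        have h2 := Fun_smul κ₁ κ₂ x z (-1)
        rw [sub_neg_eq_add] at this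
        rw [neg_one_smul] at h2
        rw [this, h2]; ring
      map_smul' := by intro c y; rw [Fun_smul]; rfl }
  have hFdef : ∀ y, F y = Fun κ₁ κ₂ x y := fun y => rfl
  have hFle : ∀ y, ‖F y‖ ≤ ‖L y‖ := by
    intro y
    by_cases hy : y = 0
    · subst hy; simp
    have hLy : L y ≠ 0 := fun h => hy (hLinj (by rw [h, map_zero]))
    have hLy' : 0 < ‖L y‖ := norm_pos_iff.2 hLy
    by_cases hF0 : F y = 0
    · rw [hF0]; simp
    have hFp : 0 < ‖F y‖ := norm_pos_iff.2 hF0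
    have hFc : (‖F y‖ : ℂ) ≠ 0 := by exact_mod_cast hFp.ne'
    have hLc : (‖L y‖ : ℂ) ≠ 0 := by exact_mod_cast hLy'.ne'
    set c : ℂ := (conj (F y) / ‖F y‖) / ‖L y‖ with hc
    have hcn : ‖c‖ = 1 / ‖L y‖ := by
      rw [hc, norm_div, norm_div, RCLike.norm_conj, norm_real, norm_real, norm_norm, norm_norm,
        div_self hFp.ne']
    have h8 : ‖L (c • y)‖ ≤ 1 := by
      rw [map_smul, norm_smul, hcn, one_div, inv_mul_cancel₀ hLy'.ne']
    have h9 := hxf _ h8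
    rw [Fun_smul, ← hFdef] at h9
    have h10 : c * F y = ((‖F y‖ / ‖L y‖ : ℝ) : ℂ) := by
      have : conj (F y) * F y = ((‖F y‖ ^ 2 : ℝ) : ℂ) := by
        rw [mul_comm, mul_conj, normSq_eq_norm_sq]
      rw [hc, div_mul_eq_mul_div, div_mul_eq_mul_div, this]
      push_cast
      field_simp
    rw [h10, ofReal_re, div_le_one hLy'] at h9
    exact h9
  -- the functional on the range of `L` and its extension
  let e := LinearEquiv.ofInjective L hLinj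
  have he : ∀ y, ((e y : LinearMap.range L) : Y) = L y := fun y => rfl
  have hbd : ∀ z : LinearMap.range L, ‖(F.comp e.symm.toLinearMap) z‖ ≤ 1 * ‖z‖ := by
    intro z
    obtain ⟨y, rfl⟩ := e.surjective z
    rw [one_mul]
    simp only [LinearMap.comp_apply, LinearEquiv.coe_coe, LinearEquiv.symm_apply_apply]
    exact hFle y
  let f₀ : LinearMap.range L →L[ℂ] ℂ := (F.comp e.symm.toLinearMap).mkContinuous 1 hbd
  obtain ⟨g, hg, hgn⟩ := exists_extension_norm_eq (LinearMap.range L) f₀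
  have hgL : ∀ y, g (L y) = F y := by
    intro y
    have := hg (e y)
    rw [he] at this
    rw [this]
    simp [f₀]
  have hgle : ‖g‖ ≤ 1 := by
    rw [hgn]
    exact LinearMap.mkContinuous_norm_le _ zero_le_one _
  have hgx : g (L x) = 1 := by rw [hgL, hFdef, Fun_self _ _ _ hx1 hx3]
  have hone : (1 : ℝ) ≤ ‖g‖ * ‖L x‖ := by
    have := g.le_opNorm (L x)
    rwa [hgx, norm_one] at this
  have hLx0 : 0 ≤ ‖L x‖ := norm_nonneg _
  have hLx1 : ‖L x‖ = 1 := by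
    refine le_antisymm hxle ?_
    nlinarith [norm_nonneg g]
  have hg1 : ‖g‖ = 1 := by
    refine le_antisymm hgle ?_
    rw [hLx1, mul_one] at hone
    exact hone
  refine ⟨L x, g, hLx1, hg1, hgx, ?_⟩
  convert hdense using 2
  funext n
  have hSn : (S ^ n) (L x) = L ![l₁ ^ n * x 0 + n * l₁ ^ (n - 1) * x 1, l₁ ^ n * x 1,
      l₂ ^ n * x 2 + n * l₂ ^ (n - 1) * x 3, l₂ ^ n * x 3] := by
    rw [hLdef, hLdef, map_add, map_add, map_add, map_smul, map_smul, map_smul, map_smul,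
      pow_u hu₁, pow_u hu₂, pow_v hu₁ hv₁, pow_v hu₂ hv₂]
    simp only [Matrix.cons_val_zero, Matrix.cons_val_one, Matrix.cons_val]
    module
  rw [hSn, hgL, hFdef]
  unfold Fun orb
  simp only [Matrix.cons_val_zero, Matrix.cons_val_one, Matrix.cons_val]
  have hr' : (r : ℂ) ≠ 0 := hl1
  have hp1 : (r : ℂ) ^ n * (l₁ / (‖l₁‖ : ℂ)) ^ n = l₁ ^ n := by
    rw [← mul_pow, ← hr]; congr 1; field_simp
  have hp2 : (r : ℂ) ^ n * (l₂ / (‖l₂‖ : ℂ)) ^ n = l₂ ^ n := by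
    rw [← mul_pow, ← hnorm]; congr 1; field_simp
  have hq1 : (n : ℂ) * l₁ ^ (n - 1) * l₁ = n * l₁ ^ n := by
    rcases Nat.eq_zero_or_pos n with h | h
    · subst h; simp
    · obtain ⟨m, rfl⟩ : ∃ m, n = m + 1 := ⟨n - 1, by omega⟩
      rw [Nat.add_sub_cancel, pow_succ]; ring
  have hq2 : (n : ℂ) * l₂ ^ (n - 1) * l₂ = n * l₂ ^ n := by
    rcases Nat.eq_zero_or_pos n with h | h
    · subst h; simp
    · obtain ⟨m, rfl⟩ : ∃ m, n = m + 1 := ⟨n - 1, by omega⟩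
      rw [Nat.add_sub_cancel, pow_succ]; ring
  have hrhs : (r : ℂ) ^ n * ((l₁ / (‖l₁‖ : ℂ)) ^ n * (1 / 2 + n * β) +
      (l₂ / (‖l₂‖ : ℂ)) ^ n * (1 / 2 + n * conj β)) =
      l₁ ^ n * (1 / 2 + n * β) + l₂ ^ n * (1 / 2 + n * conj β) := by
    rw [← hp1, ← hp2]; ring
  rw [hrhs, hκ₁, hκ₂]
  have t1 : l₁ * β / x 1 * (l₁ ^ n * x 0 + n * l₁ ^ (n - 1) * x 1) +
      (1 / 2 / x 1 - l₁ * β * x 0 / x 1 ^ 2) * (l₁ ^ n * x 1) = l₁ ^ n * (1 / 2 + n * β) := by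
    have : l₁ * β / x 1 * (l₁ ^ n * x 0 + n * l₁ ^ (n - 1) * x 1) =
        l₁ * β * l₁ ^ n * x 0 / x 1 + β * (n * l₁ ^ (n - 1) * l₁) := by field_simp
    rw [this, hq1]
    field_simp
    ring
  have t2 : l₂ * conj β / x 3 * (l₂ ^ n * x 2 + n * l₂ ^ (n - 1) * x 3) +
      (1 / 2 / x 3 - l₂ * conj β * x 2 / x 3 ^ 2) * (l₂ ^ n * x 3) =
      l₂ ^ n * (1 / 2 + n * conj β) := by
    have : l₂ * conj β / x 3 * (l₂ ^ n * x 2 + n * l₂ ^ (n - 1) * x 3) =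
        l₂ * conj β * l₂ ^ n * x 2 / x 3 + conj β * (n * l₂ ^ (n - 1) * l₂) := by field_simp
    rw [this, hq2]
    field_simp
    ring
  rw [t1, t2]

/-- The Jordan chain. -/
lemma exists_chain {S : Y →L[ℂ] Y} {l : ℂ}
    (h : LinearMap.ker (((S - l • (1 : Y →L[ℂ] Y)) ^ 2 : Y →L[ℂ] Y) : Y →ₗ[ℂ] Y) ≠
      LinearMap.ker ((S - l • (1 : Y →L[ℂ] Y) : Y →L[ℂ] Y) : Y →ₗ[ℂ] Y)) :
    ∃ u v : Y, S u = l • u ∧ S v = l • v + u ∧ u ≠ 0 := by
  have hle : LinearMap.ker ((S - l • (1 : Y →L[ℂ] Y) : Y →L[ℂ] Y) : Y →ₗ[ℂ] Y) ≤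
      LinearMap.ker (((S - l • (1 : Y →L[ℂ] Y)) ^ 2 : Y →L[ℂ] Y) : Y →ₗ[ℂ] Y) := by
    intro v hv
    rw [LinearMap.mem_ker] at hv ⊢
    have hv' : (S - l • (1 : Y →L[ℂ] Y)) v = 0 := hv
    change ((S - l • (1 : Y →L[ℂ] Y)) ^ 2) v = 0
    rw [pow_two, ContinuousLinearMap.mul_apply, hv', map_zero]
  obtain ⟨v, hv1, hv2⟩ : ∃ v, v ∈ LinearMap.ker (((S - l • (1 : Y →L[ℂ] Y)) ^ 2 : Y →L[ℂ] Y) :
      Y →ₗ[ℂ] Y) ∧ v ∉ LinearMap.ker ((S - l • (1 : Y →L[ℂ] Y) : Y →L[ℂ] Y) : Y →ₗ[ℂ] Y) := by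
    by_contra hcon
    push Not at hcon
    exact h (le_antisymm hcon hle)
  rw [LinearMap.mem_ker] at hv1 hv2
  have hv1' : ((S - l • (1 : Y →L[ℂ] Y)) ^ 2) v = 0 := hv1
  have hv2' : (S - l • (1 : Y →L[ℂ] Y)) v ≠ 0 := hv2
  refine ⟨(S - l • (1 : Y →L[ℂ] Y)) v, v, ?_, ?_, hv2'⟩
  · rw [pow_two, ContinuousLinearMap.mul_apply] at hv1'
    have h3 : (S - l • (1 : Y →L[ℂ] Y)) ((S - l • (1 : Y →L[ℂ] Y)) v) =
        S ((S - l • (1 : Y →L[ℂ] Y)) v) - l • ((S - l • (1 : Y →L[ℂ] Y)) v) := by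
      simp [ContinuousLinearMap.sub_apply]
    rw [h3] at hv1'
    exact sub_eq_zero.1 hv1'
  · simp [ContinuousLinearMap.sub_apply]

end core

/-- **Answer to MP_51ad50_an, Q1 (yes).** -/
theorem _root_.Pool.Agent.Results.MP_51ad50_an.StronglyNumericallyHypercyclic.result
    {X : Type u} [NormedAddCommGroup X] [NormedSpace ℂ X] [CompleteSpace X] (T : X →L[ℂ] X)
    (l₁ l₂ : ℂ)
    (h₁ : LinearMap.ker (((T - l₁ • (1 : X →L[ℂ] X)) ^ 2 : X →L[ℂ] X) : X →ₗ[ℂ] X) ≠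
      LinearMap.ker ((T - l₁ • (1 : X →L[ℂ] X) : X →L[ℂ] X) : X →ₗ[ℂ] X))
    (h₂ : LinearMap.ker (((T - l₂ • (1 : X →L[ℂ] X)) ^ 2 : X →L[ℂ] X) : X →ₗ[ℂ] X) ≠
      LinearMap.ker ((T - l₂ • (1 : X →L[ℂ] X) : X →L[ℂ] X) : X →ₗ[ℂ] X))
    (heq : ‖l₁‖ = ‖l₂‖) (hge : 1 ≤ ‖l₁‖)
    (hind : ∀ m₁ m₂ : ℤ, (l₁ / (‖l₁‖ : ℂ)) ^ m₁ * (l₂ / (‖l₂‖ : ℂ)) ^ m₂ = 1 → m₁ = 0 ∧ m₂ = 0) :
    StronglyNH.{u, v} T := by
  intro Y _ _ _ S J hJ
  obtain ⟨u₁, v₁, hu₁, hv₁, hn₁⟩ := exists_chain h₁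
  obtain ⟨u₂, v₂, hu₂, hv₂, hn₂⟩ := exists_chain h₂
  refine core (S := S) (u₁ := J u₁) (v₁ := J v₁) (u₂ := J u₂) (v₂ := J v₂) (l₁ := l₁) (l₂ := l₂)
    ?_ ?_ ?_ ?_ ?_ ?_ heq hge hind
  · rw [← hJ, hu₁, map_smul]
  · rw [← hJ, hv₁, map_add, map_smul]
  · rw [← hJ, hu₂, map_smul]
  · rw [← hJ, hv₂, map_add, map_smul]
  · simpa using hn₁
  · simpa using hn₂

end Pool.Agent.Results.MP_51ad50_an.StronglyNumericallyHypercyclic
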